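import Mathlib

set_option autoImplicit false

/-!
# Bounds for the number of prime factors and of divisors
-/

open Finset ArithmeticFunction

namespace Pool.Agent.H6.AP3

theorem card_divisors_le (n : ℕ) (hn : n ≠ 0) : n.divisors.card ≤ 2 ^ cardFactors n := by
  rw [Nat.card_divisors hn, cardFactors_eq_sum_factorization, Finsupp.sum,
    ← Finset.prod_pow_eq_pow_sum, Nat.support_factorization]
  apply Finset.prod_le_prod'
  intro q _
  exact Nat.succ_le_of_lt Nat.lt_two_pow_self

theorem pow_cardFactors_le (S C : ℕ) (R : ℕ) :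
    R ≠ 0 → (∀ q : ℕ, q.Prime → q ∣ R → S ≤ q ^ C) → S ^ cardFactors R ≤ R ^ C := by
  induction R using induction_on_primes with
  | zero => intro h; exact absurd rfl h
  | one => intro _ _; simp
  | prime_mul q a hq ih =>
    intro hR h
    have ha : a ≠ 0 := by rintro rfl; simp at hR
    rw [cardFactors_mul hq.ne_zero ha, cardFactors_apply_prime hq, pow_add, pow_one, mul_pow]
    exact Nat.mul_le_mul (h q hq (dvd_mul_right _ _))
      (ih ha fun q' hq' hd => h q' hq' (hd.mul_left _))

theorem cardFactors_le (S C e : ℕ) (hS : 2 ≤ S) (R : ℕ) (hR : R ≠ 0)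
    (h : ∀ q : ℕ, q.Prime → q ∣ R → S ≤ q ^ C) (hRS : R ≤ S ^ e) : cardFactors R ≤ e * C := by
  have h1 := pow_cardFactors_le S C R hR h
  have h2 : S ^ cardFactors R ≤ S ^ (e * C) :=
    h1.trans ((Nat.pow_le_pow_left hRS C).trans (by rw [← pow_mul]))
  exact (Nat.pow_le_pow_iff_right (by omega)).1 h2

theorem cardFactors_le_of_dvd {a b : ℕ} (h : a ∣ b) (hb : b ≠ 0) :
    cardFactors a ≤ cardFactors b := by
  obtain ⟨c, rfl⟩ := h
  have ha : a ≠ 0 := by rintro rfl; simp at hb
  have hc : c ≠ 0 := by rintro rfl; simp at hb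
  rw [cardFactors_mul ha hc]
  omega

end Pool.Agent.H6.AP3
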