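import Mathlib
import Pool.Agent.H6.Hooley

set_option autoImplicit false

/-!
# Two applications of the sieve
-/

open Finset

namespace Pool.Agent.H6.AP3

open Pool.Agent.H6.Hooley

open scoped Classical in
/-- the statement of the sieve, as a property of its constants -/
def SieveProp (κ C T S0 : ℕ) : Prop := ∀ bad : ℕ → ℕ → Prop, Per bad →
    (∀ q : ℕ, q.Prime → T < q → rho bad q ≤ κ) → ∀ S : ℕ, S0 ≤ S →
    (S : ℝ) / Real.log S ^ C ≤
      (((range S).filter (fun s => ∀ q : ℕ, q.Prime → T < q → q ^ C ≤ S → ¬ bad q s)).card : ℕ)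

theorem rho_le {bad : ℕ → ℕ → Prop} {q k : ℕ} (F : Finset ℕ)
    (hF : ∀ s, s < q → bad q s → s ∈ F) (h : F.card ≤ k) : rho bad q ≤ k := by
  classical
  rw [rho]
  refine le_trans (card_le_card ?_) h
  intro s hs
  rw [mem_filter, mem_range] at hs
  exact hF s hs.1 hs.2

theorem two_roots {q u : ℕ} (hq : q.Prime) (hu : ¬ q ∣ u) (v c : ℕ) :
    ((range q).filter (fun s => q ∣ (u * s + v) ^ 2 + c)).card ≤ 2 := by
  classical
  have : Fact q.Prime := ⟨hq⟩
  set F := (range q).filter (fun s => q ∣ (u * s + v) ^ 2 + c) with hF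
  rcases F.eq_empty_or_nonempty with h | ⟨s0, hs0⟩
  · rw [h]; simp
  · have hinj : Set.InjOn (fun s : ℕ => ((u * s + v : ℕ) : ZMod q)) (F : Set ℕ) := by
      intro s hs t ht hst
      rw [mem_coe, hF, mem_filter, mem_range] at hs ht
      simp only [Nat.cast_add, Nat.cast_mul, add_left_inj] at hst
      have hu' : (u : ZMod q) ≠ 0 := by
        rwa [Ne, ZMod.natCast_eq_zero_iff]
      have h1 := mul_left_cancel₀ hu' hst
      rw [ZMod.natCast_eq_natCast_iff'] at h1
      rwa [Nat.mod_eq_of_lt hs.1, Nat.mod_eq_of_lt ht.1] at h1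
    rw [← card_image_of_injOn hinj]
    have hsub : F.image (fun s : ℕ => ((u * s + v : ℕ) : ZMod q)) ⊆
        {((u * s0 + v : ℕ) : ZMod q), -((u * s0 + v : ℕ) : ZMod q)} := by
      intro x hx
      rw [mem_image] at hx
      obtain ⟨s, hs, rfl⟩ := hx
      rw [hF, mem_filter] at hs hs0
      have h1 : (((u * s + v) ^ 2 + c : ℕ) : ZMod q) = 0 := (ZMod.natCast_eq_zero_iff _ _).2 hs.2
      have h2 : (((u * s0 + v) ^ 2 + c : ℕ) : ZMod q) = 0 :=
        (ZMod.natCast_eq_zero_iff _ _).2 hs0.2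
      rw [Nat.cast_add, Nat.cast_pow] at h1 h2
      have h3 : ((u * s + v : ℕ) : ZMod q) ^ 2 = ((u * s0 + v : ℕ) : ZMod q) ^ 2 := by
        rw [← sub_eq_zero]
        linear_combination h1 - h2
      rw [mem_insert, mem_singleton]
      exact sq_eq_sq_iff_eq_or_eq_neg.1 h3
    exact (card_le_card hsub).trans card_le_two

open scoped Classical in
theorem sieveS {J C T S0 : ℕ} (H : SieveProp (2 * J) C T S0) (m : ℕ) (v : ℕ → ℕ) (S : ℕ)
    (hS : S0 ≤ S) :
    (S : ℝ) / Real.log S ^ C ≤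
      (((range S).filter (fun s => ∀ q : ℕ, q.Prime → T < q → q ^ C ≤ S → ¬ q ∣ m →
        ∀ j < J, ¬ q ∣ (m * s + v j) ^ 2 + 1)).card : ℕ) := by
  have h := H (fun q s => ¬ q ∣ m ∧ ∃ j < J, q ∣ (m * s + v j) ^ 2 + 1) ?_ ?_ S hS
  · refine h.trans ?_
    norm_cast
    apply card_le_card
    intro s
    simp only [mem_filter, mem_range]
    rintro ⟨h1, h2⟩
    refine ⟨h1, ?_⟩
    intro q hq hT hqS hqm j hj hd
    exact h2 q hq hT hqS ⟨hqm, j, hj, hd⟩
  · intro q s
    have key : ∀ j, q ∣ (m * (s % q) + v j) ^ 2 + 1 ↔ q ∣ (m * s + v j) ^ 2 + 1 := by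
      intro j
      have h1 : (m * (s % q) + v j) ^ 2 + 1 ≡ (m * s + v j) ^ 2 + 1 [MOD q] := by
        apply Nat.ModEq.add_right
        apply Nat.ModEq.pow
        apply Nat.ModEq.add_right
        apply Nat.ModEq.mul_left
        exact Nat.mod_modEq s q
      exact h1.dvd_iff dvd_rfl
    simp only [key]
  · intro q hq hT
    by_cases hqm : q ∣ m
    · refine rho_le ∅ ?_ (by simp)
      intro s _ hs
      exact absurd hqm hs.1
    · refine rho_le
        ((range J).biUnion (fun j => (range q).filter (fun s => q ∣ (m * s + v j) ^ 2 + 1))) ?_ ?_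
      · intro s hs
        rintro ⟨h2, j, hj, hd⟩
        rw [mem_biUnion]
        exact ⟨j, mem_range.2 hj, mem_filter.2 ⟨mem_range.2 hs, hd⟩⟩
      · refine (card_biUnion_le_card_mul _ _ 2 ?_).trans ?_
        · intro j _
          convert two_roots hq hqm (v j) 1
        · rw [card_range, mul_comm]

open scoped Classical in
theorem sieveD {J C T S0 : ℕ} (hJ : 1 ≤ J) (H : SieveProp (2 * J) C T S0) (M : ℕ)
    (hM : ∀ q : ℕ, q.Prime → q ≤ T → q ∣ M) (b : ℕ) (Y : ℕ) (hY : S0 ≤ Y) :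
    (Y : ℝ) / Real.log Y ^ C ≤
      (((range Y).filter (fun a => ∀ q : ℕ, q.Prime → q ^ C ≤ Y →
        ¬ q ∣ (M * a + 1) ^ 2 + (M * b) ^ 2)).card : ℕ) := by
  have h := H (fun q a => ¬ q ∣ M ∧ q ∣ (M * a + 1) ^ 2 + (M * b) ^ 2) ?_ ?_ Y hY
  · refine h.trans ?_
    norm_cast
    apply card_le_card
    intro s
    simp only [mem_filter, mem_range]
    rintro ⟨h1, h2⟩
    refine ⟨h1, ?_⟩
    intro q hq hqS hd
    have hqM : ¬ q ∣ M := by
      intro hqM
      have h3 : (M * s + 1) ^ 2 + (M * b) ^ 2 = M * (M * s ^ 2 + 2 * s + M * b ^ 2) + 1 := by ring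
      rw [h3] at hd
      have h4 : q ∣ 1 := (Nat.dvd_add_right (hqM.mul_right _)).1 hd
      exact hq.one_lt.ne' (Nat.dvd_one.1 h4)
    have hT : T < q := by
      by_contra hT
      exact hqM (hM q hq (by omega))
    exact h2 q hq hT hqS ⟨hqM, hd⟩
  · intro q s
    have key : q ∣ (M * (s % q) + 1) ^ 2 + (M * b) ^ 2 ↔ q ∣ (M * s + 1) ^ 2 + (M * b) ^ 2 := by
      have h1 : (M * (s % q) + 1) ^ 2 + (M * b) ^ 2 ≡ (M * s + 1) ^ 2 + (M * b) ^ 2 [MOD q] := by
        apply Nat.ModEq.add_right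
        apply Nat.ModEq.pow
        apply Nat.ModEq.add_right
        apply Nat.ModEq.mul_left
        exact Nat.mod_modEq s q
      exact h1.dvd_iff dvd_rfl
    simp only [key]
  · intro q hq hT
    by_cases hqm : q ∣ M
    · refine rho_le ∅ ?_ (by simp)
      intro s _ hs
      exact absurd hqm hs.1
    · refine rho_le _ ?_ ((two_roots hq hqm 1 ((M * b) ^ 2)).trans (by omega))
      intro s hs hs2
      rw [mem_filter]
      exact ⟨mem_range.2 hs, hs2.2⟩

/-- integers `a < Y` with `q ∣ M a + 1` -/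
theorem card_dvd_le {q M : ℕ} (hq : q.Prime) (Y : ℕ) :
    ((range Y).filter (fun a => q ∣ M * a + 1)).card ≤ Y / q + 1 := by
  have h : ((range Y).filter (fun a => q ∣ M * a + 1)).card ≤ (range (Y / q + 1)).card := by
    apply card_le_card_of_injOn (fun a => a / q)
    · intro a ha
      rw [mem_coe, mem_filter, mem_range] at ha
      rw [mem_coe, mem_range]
      have := Nat.div_le_div_right (c := q) ha.1.le
      simp only
      omega
    · intro a ha b hb hab
      rw [mem_coe, mem_filter] at ha hb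
      simp only at hab
      have h1 : M * a ≡ M * b [MOD q] := by
        have h2 : M * a + 1 ≡ M * b + 1 [MOD q] :=
          ((Nat.modEq_zero_iff_dvd).2 ha.2).trans ((Nat.modEq_zero_iff_dvd).2 hb.2).symm
        exact Nat.ModEq.add_right_cancel' 1 h2
      have hcop : Nat.gcd q M = 1 := by
        rw [← Nat.coprime_iff_gcd_eq_one, Nat.Prime.coprime_iff_not_dvd hq]
        intro hqM
        have h4 : q ∣ 1 := (Nat.dvd_add_right (hqM.mul_right _)).1 ha.2
        exact hq.one_lt.ne' (Nat.dvd_one.1 h4)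
      have h3 : a ≡ b [MOD q] := Nat.ModEq.cancel_left_of_coprime hcop h1
      have h4 := Nat.div_add_mod a q
      have h5 := Nat.div_add_mod b q
      unfold Nat.ModEq at h3
      rw [hab, h3] at h4
      omega
  rwa [card_range] at h

open scoped Classical in
/-- the sieve for `D = a^2 + b^2` with coprime `a = M a' + 1`, `b = M b1`. -/
theorem sieveD' {J C T S0 : ℕ} (hJ : 1 ≤ J) (hC : 1 ≤ C) (H : SieveProp (2 * J) C T S0) (M : ℕ)
    (hM : ∀ q : ℕ, q.Prime → q ≤ T → q ∣ M) :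
    ∃ Y0 : ℕ, ∀ Y : ℕ, Y0 ≤ Y → ∀ b : ℕ, 1 ≤ b → b ≤ Y →
    (Y : ℝ) / (2 * Real.log Y ^ C) ≤
      (((range Y).filter (fun a => (∀ q : ℕ, q.Prime → q ^ C ≤ Y →
        ¬ q ∣ (M * a + 1) ^ 2 + (M * b) ^ 2) ∧ Nat.Coprime (M * a + 1) (M * b))).card : ℕ) := by
  obtain ⟨Y1, hY1⟩ := Filter.eventually_atTop.1 (log_ev (C * C) ((4 * C) ^ C : ℝ)
    (by positivity))
  refine ⟨max Y1 (max S0 3), ?_⟩
  intro Y hY b hb hbY
  have hY1' := hY1 Y ((le_max_left _ _).trans hY)
  have hYS : S0 ≤ Y := ((le_max_left _ _).trans (le_max_right _ _)).trans hY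
  have hY3 : 3 ≤ Y := ((le_max_right _ _).trans (le_max_right _ _)).trans hY
  have hYp : (0 : ℝ) < Y := by positivity
  have hlog : 0 < Real.log Y := Real.log_pos (by exact_mod_cast (by omega : 1 < Y))
  have hC0 : (0 : ℝ) < C := by exact_mod_cast hC
  have hYpow : (4 * C * Real.log Y ^ C) ^ C ≤ (Y : ℝ) := by
    have h1 : √(Y : ℝ) ≤ Y := by
      rw [Real.sqrt_le_left hYp.le]
      have : (1 : ℝ) ≤ Y := by exact_mod_cast (by omega : 1 ≤ Y)
      nlinarith
    refine le_trans ?_ h1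
    refine le_trans (le_of_eq ?_) hY1'
    rw [mul_pow, ← pow_mul]
  set G := (range Y).filter (fun a => (∀ q : ℕ, q.Prime → q ^ C ≤ Y →
        ¬ q ∣ (M * a + 1) ^ 2 + (M * b) ^ 2) ∧ Nat.Coprime (M * a + 1) (M * b)) with hG
  set G0 := (range Y).filter (fun a => ∀ q : ℕ, q.Prime → q ^ C ≤ Y →
        ¬ q ∣ (M * a + 1) ^ 2 + (M * b) ^ 2) with hG0
  have h0 := sieveD hJ H M hM b Y hYS
  rw [← hG0] at h0
  set F := (b.primeFactors).filter (fun q => Y < q ^ C) with hF
  set U := F.biUnion (fun q => (range Y).filter (fun a => q ∣ M * a + 1)) with hU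
  have hsub : G0 ⊆ G ∪ U := by
    intro a ha
    rw [mem_union]
    by_cases hcop : Nat.Coprime (M * a + 1) (M * b)
    · left
      rw [hG, mem_filter]
      rw [hG0, mem_filter] at ha
      exact ⟨ha.1, ha.2, hcop⟩
    · right
      rw [Nat.Prime.not_coprime_iff_dvd] at hcop
      obtain ⟨q, hq, hqa, hqb⟩ := hcop
      have hqM : ¬ q ∣ M := by
        intro hqM
        have h4 : q ∣ 1 := (Nat.dvd_add_right (hqM.mul_right _)).1 hqa
        exact hq.one_lt.ne' (Nat.dvd_one.1 h4)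
      rw [hG0, mem_filter] at ha
      rw [hU, mem_biUnion]
      refine ⟨q, ?_, ?_⟩
      · rw [hF, mem_filter]
        refine ⟨?_, ?_⟩
        · rw [Nat.mem_primeFactors]
          exact ⟨hq, (hq.dvd_mul.1 hqb).resolve_left hqM, by omega⟩
        · by_contra hlt
          refine ha.2 q hq (by omega) ?_
          exact dvd_add (hqa.trans (dvd_pow_self _ two_ne_zero))
            (hqb.trans (dvd_pow_self _ two_ne_zero))
      · rw [mem_filter]
        exact ⟨ha.1, hqa⟩
  have hFcard : F.card ≤ C := by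
    have h1 : ∏ q ∈ F, q ∣ b := (prod_dvd_prod_of_subset _ _ _ (filter_subset _ _)).trans
      (Nat.prod_primeFactors_dvd b)
    have h2 : ∏ q ∈ F, q ≤ Y := (Nat.le_of_dvd (by omega) h1).trans hbY
    have h3 : Y ^ F.card ≤ ∏ q ∈ F, q ^ C := by
      rw [← prod_const]
      apply prod_le_prod'
      intro q hq
      rw [hF, mem_filter] at hq
      exact hq.2.le
    rw [prod_pow] at h3
    have h4 : Y ^ F.card ≤ Y ^ C := h3.trans (Nat.pow_le_pow_left h2 C)
    exact (Nat.pow_le_pow_iff_right (by omega)).1 h4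
  have hUcard : (U.card : ℝ) ≤ Y / (2 * Real.log Y ^ C) := by
    have h1 : (U.card : ℝ) ≤ ∑ q ∈ F, (((range Y).filter (fun a => q ∣ M * a + 1)).card : ℝ) := by
      exact_mod_cast card_biUnion_le
    refine h1.trans ?_
    have h2 : ∀ q ∈ F, (((range Y).filter (fun a => q ∣ M * a + 1)).card : ℝ) ≤
        Y / (2 * C * Real.log Y ^ C) := by
      intro q hq
      rw [hF, mem_filter, Nat.mem_primeFactors] at hq
      obtain ⟨⟨hqp, hqb, _⟩, hqY⟩ := hq
      have hqle : q ≤ Y := (Nat.le_of_dvd (by omega) hqb).trans hbY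
      have hq0 : (0 : ℝ) < q := by exact_mod_cast hqp.pos
      have h3 : (((range Y).filter (fun a => q ∣ M * a + 1)).card : ℝ) ≤ (Y : ℝ) / q + 1 := by
        have h4 := card_dvd_le (M := M) hqp Y
        have h5 : (((Y / q : ℕ) : ℝ)) ≤ (Y : ℝ) / q := Nat.cast_div_le
        calc (((range Y).filter (fun a => q ∣ M * a + 1)).card : ℝ) ≤ ((Y / q + 1 : ℕ) : ℝ) := by
              exact_mod_cast h4
          _ ≤ (Y : ℝ) / q + 1 := by push_cast; linarith
      have h6 : (1 : ℝ) ≤ (Y : ℝ) / q := by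
        rw [le_div_iff₀ hq0]
        have : (q : ℝ) ≤ Y := by exact_mod_cast hqle
        linarith
      have h7 : 4 * C * Real.log Y ^ C ≤ (q : ℝ) := by
        by_contra hcon
        push Not at hcon
        have h8 : (q : ℝ) ^ C ≤ (4 * C * Real.log Y ^ C) ^ C := pow_le_pow_left₀ hq0.le hcon.le C
        have h9 : (Y : ℝ) < (q : ℝ) ^ C := by exact_mod_cast hqY
        linarith
      calc (((range Y).filter (fun a => q ∣ M * a + 1)).card : ℝ) ≤ (Y : ℝ) / q + 1 := h3
        _ ≤ 2 * (Y / q) := by linarith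
        _ ≤ 2 * (Y / (4 * C * Real.log Y ^ C)) := by
            have : (Y : ℝ) / q ≤ Y / (4 * C * Real.log Y ^ C) :=
              div_le_div_of_nonneg_left hYp.le (by positivity) h7
            linarith
        _ = Y / (2 * C * Real.log Y ^ C) := by field_simp; ring
    refine (sum_le_sum h2).trans ?_
    rw [sum_const, nsmul_eq_mul]
    calc (F.card : ℝ) * (Y / (2 * C * Real.log Y ^ C)) ≤ C * (Y / (2 * C * Real.log Y ^ C)) := by
          have : (F.card : ℝ) ≤ C := by exact_mod_cast hFcard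
          gcongr
      _ = Y / (2 * Real.log Y ^ C) := by field_simp
  have hcard : (G0.card : ℝ) ≤ G.card + U.card := by
    exact_mod_cast (card_le_card hsub).trans (card_union_le _ _)
  have hhalf : (Y : ℝ) / Real.log Y ^ C = Y / (2 * Real.log Y ^ C) + Y / (2 * Real.log Y ^ C) := by
    field_simp; ring
  linarith

end Pool.Agent.H6.AP3
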