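import Mathlib
import Pool.Agent.H6.AP3.Omega

set_option autoImplicit false

/-!
# Roots of `-1` and the modulus
-/

open Finset ArithmeticFunction

namespace Pool.Agent.H6.AP3

theorem root_step {p k x : ℕ} (hp : Nat.Coprime p 2) (h : p ^ k ∣ x ^ 2 + 1) :
    ∃ y, p ^ (2 * k) ∣ y ^ 2 + 1 := by
  have hev : 2 ∣ x * (x ^ 2 + 3) := by
    rcases Nat.even_or_odd x with hx | hx
    · exact (even_iff_two_dvd.1 hx).mul_right _
    · apply Dvd.dvd.mul_left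
      obtain ⟨c, rfl⟩ := hx
      exact ⟨2 * c ^ 2 + 2 * c + 2, by ring⟩
  obtain ⟨y, hy⟩ := hev
  refine ⟨y, ?_⟩
  have h1 : 4 * (y ^ 2 + 1) = (x ^ 2 + 1) ^ 2 * (x ^ 2 + 4) := by
    calc 4 * (y ^ 2 + 1) = (2 * y) ^ 2 + 4 := by ring
      _ = (x * (x ^ 2 + 3)) ^ 2 + 4 := by rw [hy]
      _ = _ := by ring
  have h2 : p ^ (2 * k) ∣ 4 * (y ^ 2 + 1) := by
    rw [h1, mul_comm 2 k, pow_mul]
    exact (pow_dvd_pow_of_dvd h 2).mul_right _
  have h3 : Nat.Coprime (p ^ (2 * k)) 4 := by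
    have : (4 : ℕ) = 2 ^ 2 := by norm_num
    rw [this]
    exact Nat.Coprime.pow _ _ hp
  exact h3.dvd_of_dvd_mul_left h2

theorem exists_root4 {p : ℕ} (hp : p.Prime) (hp4 : p % 4 = 1) : ∃ n, p ^ 4 ∣ n ^ 2 + 1 := by
  have : Fact p.Prime := ⟨hp⟩
  have hsq : IsSquare (-1 : ZMod p) := ZMod.exists_sq_eq_neg_one_iff.2 (by omega)
  obtain ⟨z, hz⟩ := hsq
  have h1 : p ^ 1 ∣ z.val ^ 2 + 1 := by
    rw [pow_one, ← ZMod.natCast_eq_zero_iff]
    push_cast
    rw [ZMod.natCast_zmod_val]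
    linear_combination -hz
  have hcop : Nat.Coprime p 2 := by
    rw [Nat.Prime.coprime_iff_not_dvd hp]
    intro h
    have := Nat.le_of_dvd (by norm_num) h
    have := hp.two_le
    have : p = 2 := by omega
    omega
  obtain ⟨y, hy⟩ := root_step hcop h1
  obtain ⟨w, hw⟩ := root_step hcop hy
  exact ⟨w, hw⟩

/-- the properties of the modulus `M` -/
structure IsMod (p T n M K : ℕ) : Prop where
  pos : 0 < M
  small : ∀ q : ℕ, q.Prime → q ≤ T → q ∣ M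
  root : p ^ 4 ∣ n ^ 2 + 1
  p4 : p ^ 4 ∣ M
  mul : ∀ j < p ^ 2 + 1, ∀ k < 3, ∀ q : ℕ, q.Prime → q ∣ M → ((n + j * p ^ k) ^ 2 + 1) * q ∣ M
  om : ∀ j < p ^ 2 + 1, ∀ k < 3, cardFactors ((n + j * p ^ k) ^ 2 + 1) ≤ K

theorem exists_mod {p : ℕ} (hp : p.Prime) (hp4 : p % 4 = 1) (T : ℕ) :
    ∃ n M K : ℕ, IsMod p T n M K := by
  obtain ⟨n, hn⟩ := exists_root4 hp hp4
  obtain ⟨W, hW⟩ : ∃ W, W = ∏ j ∈ range (p ^ 2 + 1), ∏ k ∈ range 3, ((n + j * p ^ k) ^ 2 + 1) :=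
    ⟨_, rfl⟩
  have hdvd : ∀ j < p ^ 2 + 1, ∀ k < 3, (n + j * p ^ k) ^ 2 + 1 ∣ W := by
    intro j hj k hk
    rw [hW]
    exact (dvd_prod_of_mem (fun k => (n + j * p ^ k) ^ 2 + 1) (mem_range.2 hk)).trans
      (dvd_prod_of_mem (fun j => ∏ k ∈ range 3, ((n + j * p ^ k) ^ 2 + 1)) (mem_range.2 hj))
  have hW0 : 0 < W := by rw [hW]; positivity
  refine ⟨n, W ^ 2 * T.factorial, cardFactors W, ?_, ?_, hn, ?_, ?_, ?_⟩
  · positivity
  · intro q hq hqT
    exact (Nat.dvd_factorial hq.pos hqT).mul_left _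
  · have h1 := hdvd 0 (by positivity) 0 (by norm_num)
    rw [zero_mul, add_zero] at h1
    exact ((hn.trans h1).trans (dvd_pow_self _ two_ne_zero)).mul_right _
  · intro j hj k hk q hq hqM
    have h1 : q ∣ W * T.factorial := by
      rcases hq.dvd_mul.1 hqM with h | h
      · exact (hq.dvd_of_dvd_pow h).mul_right _
      · exact h.mul_left _
    have h2 : W ^ 2 * T.factorial = W * (W * T.factorial) := by ring
    rw [h2]
    exact mul_dvd_mul (hdvd j hj k hk) h1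
  · intro j hj k hk
    exact cardFactors_le_of_dvd (hdvd j hj k hk) hW0.ne'

theorem exists_v {a b M D : ℕ} (hab : Nat.Coprime a b) (hD : D = a ^ 2 + b ^ 2) (hb : 0 < b)
    (hMD : Nat.Coprime M D) (hM : 0 < M) (n : ℕ) :
    ∃ v < M * D, v ≡ n [MOD M] ∧ D ∣ v ^ 2 + 1 ∧ v * b ≡ a [MOD D] := by
  have hD0 : 0 < D := by rw [hD]; positivity
  obtain ⟨x, y, hxy⟩ : ∃ x y : ℤ, (a : ℤ) * x + b * y = 1 := by
    refine ⟨Nat.gcdA a b, Nat.gcdB a b, ?_⟩
    have := Nat.gcd_eq_gcd_ab a b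
    rw [hab] at this
    push_cast at this
    linarith
  obtain ⟨ν, hν⟩ : ∃ ν : ℤ, ν = a * y - b * x := ⟨_, rfl⟩
  have h1 : (D : ℤ) ∣ ν ^ 2 + 1 := by
    refine ⟨x ^ 2 + y ^ 2, ?_⟩
    rw [hν, hD]; push_cast
    have : (1 : ℤ) = (a * x + b * y) ^ 2 := by rw [hxy]; ring
    calc ((a : ℤ) * y - b * x) ^ 2 + 1 = ((a : ℤ) * y - b * x) ^ 2 + (a * x + b * y) ^ 2 := by
          rw [← this]
      _ = _ := by ring
  have h2 : (D : ℤ) ∣ ν * b - a := by
    refine ⟨-x, ?_⟩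
    rw [hν, hD]; push_cast
    linear_combination (a : ℤ) * hxy
  obtain ⟨w, hw⟩ : ∃ w : ℕ, (w : ℤ) = ν % D := by
    refine ⟨(ν % D).toNat, ?_⟩
    rw [Int.toNat_of_nonneg]
    exact Int.emod_nonneg _ (by exact_mod_cast hD0.ne')
  have hwν : (w : ℤ) ≡ ν [ZMOD D] := by
    rw [hw]
    exact Int.mod_modEq ν D
  obtain ⟨v, hv⟩ : ∃ v, v = (Nat.chineseRemainder hMD n w : ℕ) := ⟨_, rfl⟩
  have hv1 : v ≡ n [MOD M] := by rw [hv]; exact (Nat.chineseRemainder hMD n w).2.1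
  have hv2 : v ≡ w [MOD D] := by rw [hv]; exact (Nat.chineseRemainder hMD n w).2.2
  have hv3 : v < M * D := by
    rw [hv]; exact Nat.chineseRemainder_lt_mul hMD n w hM.ne' hD0.ne'
  have hv4 : (v : ℤ) ≡ ν [ZMOD D] := ((Int.natCast_modEq_iff).2 hv2).trans hwν
  refine ⟨v, hv3, hv1, ?_, ?_⟩
  · have h3 : (v : ℤ) ^ 2 + 1 ≡ ν ^ 2 + 1 [ZMOD D] := (hv4.pow 2).add_right 1
    have h4 : (D : ℤ) ∣ (v : ℤ) ^ 2 + 1 := (Int.ModEq.dvd_iff h3).2 h1
    exact_mod_cast h4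
  · have h3 : (v : ℤ) * b ≡ ν * b [ZMOD D] := hv4.mul_right _
    have h4 : ν * b ≡ a [ZMOD D] := (Int.modEq_iff_dvd.2 (by
      have := (dvd_neg (α := ℤ)).2 h2
      rwa [neg_sub] at this))
    have h5 := h3.trans h4
    exact_mod_cast h5

theorem unique_ab {a b a' b' D v : ℕ} (hD : D = a ^ 2 + b ^ 2) (hD' : D = a' ^ 2 + b' ^ 2)
    (ha : 0 < a) (ha' : 0 < a') (hb : 0 < b) (hb' : 0 < b') (hv : D ∣ v ^ 2 + 1)
    (h : v * b ≡ a [MOD D]) (h' : v * b' ≡ a' [MOD D]) : a = a' ∧ b = b' := by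
  have hDp : 0 < D := by rw [hD]; positivity
  -- a a' + b b' is divisible by D
  have h1 : D ∣ a * a' + b * b' := by
    have e1 : a * a' + b * b' ≡ (v * b) * (v * b') + b * b' [MOD D] :=
      Nat.ModEq.add_right _ (Nat.ModEq.mul h.symm h'.symm)
    have e2 : (v * b) * (v * b') + b * b' = (v ^ 2 + 1) * (b * b') := by ring
    rw [e2] at e1
    exact (e1.dvd_iff dvd_rfl).2 (hv.mul_right _)
  have h2 : (D : ℤ) ∣ (a : ℤ) * b' - a' * b := by
    have e1 : (a : ℤ) * b' ≡ (v * b) * b' [ZMOD D] := by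
      have := (Int.natCast_modEq_iff).2 h
      push_cast at this
      exact this.symm.mul_right _
    have e2 : (a' : ℤ) * b ≡ (v * b') * b [ZMOD D] := by
      have := (Int.natCast_modEq_iff).2 h'
      push_cast at this
      exact this.symm.mul_right _
    have e3 : (v : ℤ) * b * b' = v * b' * b := by ring
    rw [e3] at e1
    exact (Int.modEq_iff_dvd.1 (e2.trans e1.symm))
  have h3 : D ≤ a * a' + b * b' := Nat.le_of_dvd (by positivity) h1
  have h4 : ((a : ℤ) * b' - a' * b) ^ 2 + ((a : ℤ) * a' + b * b') ^ 2 = (D : ℤ) ^ 2 := by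
    have e1 : (D : ℤ) = a ^ 2 + b ^ 2 := by exact_mod_cast hD
    have e2 : (D : ℤ) = a' ^ 2 + b' ^ 2 := by exact_mod_cast hD'
    calc ((a : ℤ) * b' - a' * b) ^ 2 + ((a : ℤ) * a' + b * b') ^ 2
        = ((a : ℤ) ^ 2 + b ^ 2) * (a' ^ 2 + b' ^ 2) := by ring
      _ = (D : ℤ) * D := by rw [← e1, ← e2]
      _ = (D : ℤ) ^ 2 := by ring
  have h3' : (D : ℤ) ≤ (a : ℤ) * a' + b * b' := by exact_mod_cast h3
  have h5 : (a : ℤ) * b' - a' * b = 0 := by
    have : ((a : ℤ) * b' - a' * b) ^ 2 ≤ 0 := by nlinarith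
    exact pow_eq_zero_iff (two_ne_zero) |>.1 (le_antisymm this (sq_nonneg _))
  have h6 : (a : ℤ) * a' + b * b' = D := by
    rw [h5] at h4
    have h7 : ((a : ℤ) * a' + b * b') ^ 2 = (D : ℤ) ^ 2 := by linarith
    exact (pow_left_inj₀ (by positivity) (by positivity) two_ne_zero).1 h7
  have e1 : (D : ℤ) = a ^ 2 + b ^ 2 := by exact_mod_cast hD
  have hDz : (0 : ℤ) < D := by exact_mod_cast hDp
  constructor
  · have h8 : (D : ℤ) * a' = D * a := by
      -- a (a a' + b b') = a' (a^2+b^2)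
      calc (D : ℤ) * a' = (a ^ 2 + b ^ 2) * a' := by rw [e1]
        _ = a * (a * a') + b * (a' * b) := by ring
        _ = a * (a * a') + b * (a * b') := by
            have : (a' : ℤ) * b = a * b' := by linarith
            rw [this]
        _ = (a * a' + b * b') * a := by ring
        _ = D * a := by rw [h6]
    have h9 := mul_left_cancel₀ hDz.ne' h8
    exact_mod_cast h9.symm
  · have h8 : (D : ℤ) * b' = D * b := by
      calc (D : ℤ) * b' = (a ^ 2 + b ^ 2) * b' := by rw [e1]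
        _ = a * (a * b') + b * (b * b') := by ring
        _ = a * (a' * b) + b * (b * b') := by
            have : (a : ℤ) * b' = a' * b := by linarith
            rw [this]
        _ = (a * a' + b * b') * b := by ring
        _ = D * b := by rw [h6]
    have h9 := mul_left_cancel₀ hDz.ne' h8
    exact_mod_cast h9.symm

end Pool.Agent.H6.AP3
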