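import Mathlib
import Pool.Agent.H6.AP3.Omega

set_option autoImplicit false

/-!
# The local argument: a bounded family of values of `n^2+1` meets each class modulo 3
-/

open Finset ArithmeticFunction

namespace Pool.Agent.H6.AP3

/-- the cofactor of `q` in `(n0 + b q)^2 + 1` -/
def cof (p n0 q t b : ℕ) : ℕ := p ^ 2 * t + 2 * b * n0 + b ^ 2 * q

theorem cof_mul {p n0 q t : ℕ} (h : n0 ^ 2 + 1 = q * (p ^ 2 * t)) (b : ℕ) :
    (n0 + b * q) ^ 2 + 1 = q * cof p n0 q t b := by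
  have : (n0 + b * q) ^ 2 + 1 = (n0 ^ 2 + 1) + 2 * b * n0 * q + b ^ 2 * q ^ 2 := by ring
  rw [this, h, cof]; ring

theorem cof_pair {p n0 q t : ℕ} (h : n0 ^ 2 + 1 = q * (p ^ 2 * t)) (b : ℕ) :
    (n0 + b * q + cof p n0 q t b) ^ 2 + 1 = cof p n0 q t b * cof p n0 q t (b + 1) := by
  have h1 := cof_mul h b
  have h2 : cof p n0 q t (b + 1) = cof p n0 q t b + 2 * (n0 + b * q) + q := by
    rw [cof, cof]; ring
  rw [h2]
  generalize hc : cof p n0 q t b = c at *
  generalize hn : n0 + b * q = n at *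
  calc (n + c) ^ 2 + 1 = c ^ 2 + 2 * n * c + (n ^ 2 + 1) := by ring
    _ = c ^ 2 + 2 * n * c + q * c := by rw [h1]
    _ = c * (c + 2 * n + q) := by ring

theorem cof_p {p n0 q t : ℕ} : cof p n0 q t p = p * (p * t + 2 * n0 + p * q) := by
  rw [cof]; ring

theorem cof_p2 {p n0 q t : ℕ} : cof p n0 q t (p ^ 2) = p ^ 2 * (t + 2 * n0 + p ^ 2 * q) := by
  rw [cof]; ring

theorem pair_p {p n0 q t : ℕ} (h : n0 ^ 2 + 1 = q * (p ^ 2 * t)) :
    (n0 + p * t) ^ 2 + 1 = (p * t) * (p * t + 2 * n0 + p * q) := by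
  calc (n0 + p * t) ^ 2 + 1 = (n0 ^ 2 + 1) + 2 * n0 * p * t + p ^ 2 * t ^ 2 := by ring
    _ = q * (p ^ 2 * t) + 2 * n0 * p * t + p ^ 2 * t ^ 2 := by rw [h]
    _ = _ := by ring

theorem pair_p2 {p n0 q t : ℕ} (h : n0 ^ 2 + 1 = q * (p ^ 2 * t)) :
    (n0 + t) ^ 2 + 1 = t * (t + 2 * n0 + p ^ 2 * q) := by
  calc (n0 + t) ^ 2 + 1 = (n0 ^ 2 + 1) + 2 * n0 * t + t ^ 2 := by ring
    _ = q * (p ^ 2 * t) + 2 * n0 * t + t ^ 2 := by rw [h]
    _ = _ := by ring

theorem core {p n0 q t : ℕ} (hp : 0 < p) (h : n0 ^ 2 + 1 = q * (p ^ 2 * t))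
    (g : ℕ → ZMod 3) (hg : ∀ m n : ℕ, m ≠ 0 → n ≠ 0 → g (m * n) = g m + g n)
    (hgp : g p ≠ 0) (r : ZMod 3) (hq : g q = -r) :
    (∃ b, b ≤ p ^ 2 ∧ g ((n0 + b * q) ^ 2 + 1) = r) ∨
    (∃ b, b < p ^ 2 ∧ g ((n0 + b * q + cof p n0 q t b) ^ 2 + 1) = r) ∨
    g ((n0 + p * t) ^ 2 + 1) = r ∨ g ((n0 + t) ^ 2 + 1) = r := by
  by_contra hcon
  simp only [not_or, not_exists, not_and] at hcon
  obtain ⟨c0, c1, c2, c3⟩ := hcon
  have hq0 : q ≠ 0 := by rintro rfl; simp at h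
  have ht0 : t ≠ 0 := by rintro rfl; simp at h
  have hcof0 : ∀ b, cof p n0 q t b ≠ 0 := by
    intro b
    have : 0 < p ^ 2 * t := by positivity
    rw [cof]; omega
  have ha : ∀ b ≤ p ^ 2, g (cof p n0 q t b) ≠ -r := by
    intro b hb he
    apply c0 b hb
    rw [cof_mul h b, hg _ _ hq0 (hcof0 b), hq, he]
    clear * -
    revert r; decide
  have haa : ∀ b < p ^ 2, g (cof p n0 q t b) + g (cof p n0 q t (b + 1)) ≠ r := by
    intro b hb he
    apply c1 b hb
    rw [cof_pair h b, hg _ _ (hcof0 b) (hcof0 _), he]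
  have hstep : ∀ b < p ^ 2, g (cof p n0 q t (b + 1)) = g (cof p n0 q t b) := by
    intro b hb
    have h1 := ha b hb.le
    have h2 := ha (b + 1) hb
    have h3 := haa b hb
    generalize g (cof p n0 q t (b + 1)) = x at *
    generalize g (cof p n0 q t b) = y at *
    clear * - h1 h2 h3
    revert h1 h2 h3
    revert r x y
    decide
  have hconst : ∀ b ≤ p ^ 2, g (cof p n0 q t b) = g (cof p n0 q t 0) := by
    intro b
    induction b with
    | zero => intro _; rfl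
    | succ b ih => intro hb; rw [hstep b (by omega), ih (by omega)]
  have hpp : p ≤ p ^ 2 := by nlinarith
  have e0 := ha 0 (Nat.zero_le _)
  have e1 := hconst p hpp
  have e2 := hconst (p ^ 2) le_rfl
  have f0 : g (cof p n0 q t 0) = g p + g p + g t := by
    have : cof p n0 q t 0 = p * (p * t) := by rw [cof]; ring
    rw [this, hg _ _ (by omega) (by positivity), hg _ _ (by omega) ht0]; ring
  rw [cof_p, hg _ _ (by omega) (by positivity)] at e1
  rw [cof_p2, hg _ _ (by positivity) (by positivity), sq, hg _ _ (by omega) (by omega)] at e2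
  have g1 : g ((n0 + p * t) ^ 2 + 1) = g p + g t + g (p * t + 2 * n0 + p * q) := by
    rw [pair_p h, hg _ _ (by positivity) (by positivity), hg _ _ (by omega) ht0]
  have g2 : g ((n0 + t) ^ 2 + 1) = g t + g (t + 2 * n0 + p * p * q) := by
    rw [pair_p2 h, hg _ _ (by positivity) (by positivity), sq]
  rw [g1] at c2
  rw [g2] at c3
  rw [f0] at e0 e1 e2
  generalize g p = τ at *
  generalize g t = x at *
  generalize g (p * t + 2 * n0 + p * q) = y at *
  generalize g (t + 2 * n0 + p * p * q) = z at *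
  clear * - hgp e0 e1 e2 c2 c3
  revert hgp e0 e1 e2 c2 c3
  revert r τ x y z
  decide

/-- recover `(n0, q)` from the data of a value -/
def dec (p : ℕ) (x : ℕ × ℕ × ℕ × ℕ) : ℕ × ℕ :=
  match x with
  | (n, j, b, d) =>
    if j = 0 then (n - b * d, d)
    else if j = 1 then (n - d - b * (((n - d) ^ 2 + 1) / d), ((n - d) ^ 2 + 1) / d)
    else if j = 2 then (n - d, ((n - d) ^ 2 + 1) / (p * d))
    else (n - d, ((n - d) ^ 2 + 1) / (p ^ 2 * d))

theorem local_step {p n0 q t K : ℕ} (hp : 2 ≤ p) (h : n0 ^ 2 + 1 = q * (p ^ 2 * t))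
    (g : ℕ → ZMod 3) (hg : ∀ m n : ℕ, m ≠ 0 → n ≠ 0 → g (m * n) = g m + g n)
    (hgp : g p ≠ 0) (r : ZMod 3) (hq : g q = -r)
    (hK : ∀ b ≤ p ^ 2, cardFactors ((n0 + b * q) ^ 2 + 1) ≤ K) :
    ∃ n j b d : ℕ, g (n ^ 2 + 1) = r ∧ cardFactors (n ^ 2 + 1) ≤ 2 * K ∧ j < 4 ∧ b < p ^ 2 + 1 ∧
      d ∈ (n ^ 2 + 1).divisors ∧ 1 ≤ n ∧ n ≤ n0 + p ^ 2 * q + cof p n0 q t (p ^ 2) ∧
      dec p (n, j, b, d) = (n0, q) := by
  have hq0 : 0 < q := Nat.pos_of_ne_zero (by rintro rfl; simp at h)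
  have ht0 : 0 < t := Nat.pos_of_ne_zero (by rintro rfl; simp at h)
  have hn0 : 0 < n0 := by
    rcases Nat.eq_zero_or_pos n0 with h0 | h0
    · exfalso
      rw [h0] at h
      have h1 : 1 * (2 ^ 2 * 1) ≤ q * (p ^ 2 * t) := by gcongr <;> omega
      omega
    · exact h0
  have hcof : ∀ b, 0 < cof p n0 q t b := by
    intro b
    have : 0 < p ^ 2 * t := by positivity
    rw [cof]; omega
  have hcofK : ∀ b ≤ p ^ 2, cardFactors (cof p n0 q t b) ≤ K := by
    intro b hb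
    refine le_trans (cardFactors_le_of_dvd ?_ (by omega)) (hK b hb)
    exact ⟨q, by rw [cof_mul h b]; ring⟩
  have hcofmono : ∀ b ≤ p ^ 2, cof p n0 q t b ≤ cof p n0 q t (p ^ 2) := by
    intro b hb
    rw [cof, cof]; gcongr
  have hpp : p ≤ p ^ 2 := by nlinarith
  rcases core (by omega) h g hg hgp r hq with ⟨b, hb, hr⟩ | ⟨b, hb, hr⟩ | hr | hr
  · refine ⟨n0 + b * q, 0, b, q, hr, ?_, by norm_num, by omega, ?_, by omega, ?_, ?_⟩
    · exact (hK b hb).trans (by omega)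
    · rw [Nat.mem_divisors]
      exact ⟨⟨_, cof_mul h b⟩, by omega⟩
    · have : b * q ≤ p ^ 2 * q := by gcongr
      omega
    · simp only [dec, if_true]
      rw [Nat.add_sub_cancel]
  · refine ⟨n0 + b * q + cof p n0 q t b, 1, b, cof p n0 q t b, hr, ?_, by norm_num, by omega,
      ?_, by omega, ?_, ?_⟩
    · rw [cof_pair h b, cardFactors_mul (hcof b).ne' (hcof _).ne']
      have h1 := hcofK b hb.le
      have h2 := hcofK (b + 1) hb
      omega
    · rw [Nat.mem_divisors]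
      exact ⟨⟨_, cof_pair h b⟩, by omega⟩
    · have h1 : b * q ≤ p ^ 2 * q := by gcongr
      have h2 := hcofmono b hb.le
      omega
    · have e1 : ((n0 + b * q) ^ 2 + 1) / cof p n0 q t b = q := by
        rw [cof_mul h b]
        exact Nat.mul_div_cancel _ (hcof b)
      simp only [dec, if_neg (show ¬ (1 : ℕ) = 0 by norm_num), if_true, Nat.add_sub_cancel, e1]
  · refine ⟨n0 + p * t, 2, 0, p * t, hr, ?_, by norm_num, by omega, ?_, by omega, ?_, ?_⟩
    · rw [pair_p h, cardFactors_mul (by positivity) (by positivity)]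
      have h1 := (cardFactors_le_of_dvd (a := p * t) (b := cof p n0 q t 0)
        ⟨p, by rw [cof]; ring⟩ (hcof 0).ne').trans (hcofK 0 (by omega))
      have h2 := (cardFactors_le_of_dvd (a := p * t + 2 * n0 + p * q) (b := cof p n0 q t p)
        ⟨p, by rw [cof_p]; ring⟩ (hcof p).ne').trans (hcofK p hpp)
      omega
    · rw [Nat.mem_divisors]
      exact ⟨⟨_, pair_p h⟩, by omega⟩
    · have h1 := hcofmono 0 (by omega)
      have h2 : p * t ≤ p ^ 2 * t := by gcongr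
      have h3 : cof p n0 q t 0 = p ^ 2 * t := by rw [cof]; ring
      omega
    · have e1 : (n0 ^ 2 + 1) / (p * (p * t)) = q := by
        rw [h]
        have : q * (p ^ 2 * t) = q * (p * (p * t)) := by ring
        rw [this]
        exact Nat.mul_div_cancel _ (by positivity)
      simp only [dec, if_neg (show ¬ (2 : ℕ) = 0 by norm_num),
        if_neg (show ¬ (2 : ℕ) = 1 by norm_num), if_true, Nat.add_sub_cancel, e1]
  · refine ⟨n0 + t, 3, 0, t, hr, ?_, by norm_num, by omega, ?_, by omega, ?_, ?_⟩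
    · rw [pair_p2 h, cardFactors_mul (by positivity) (by positivity)]
      have h1 := (cardFactors_le_of_dvd (a := t) (b := cof p n0 q t 0)
        ⟨p ^ 2, by rw [cof]; ring⟩ (hcof 0).ne').trans (hcofK 0 (by omega))
      have h2 := (cardFactors_le_of_dvd (a := t + 2 * n0 + p ^ 2 * q) (b := cof p n0 q t (p ^ 2))
        ⟨p ^ 2, by rw [cof_p2]; ring⟩ (hcof _).ne').trans (hcofK (p ^ 2) le_rfl)
      omega
    · rw [Nat.mem_divisors]
      exact ⟨⟨_, pair_p2 h⟩, by omega⟩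
    · have h1 := hcofmono 0 (by omega)
      have h2 : t ≤ p ^ 2 * t := Nat.le_mul_of_pos_left _ (by positivity)
      have h3 : cof p n0 q t 0 = p ^ 2 * t := by rw [cof]; ring
      omega
    · have e1 : (n0 ^ 2 + 1) / (p ^ 2 * t) = q := by
        rw [h]
        exact Nat.mul_div_cancel _ (by positivity)
      simp only [dec, if_neg (show ¬ (3 : ℕ) = 0 by norm_num),
        if_neg (show ¬ (3 : ℕ) = 1 by norm_num), if_neg (show ¬ (3 : ℕ) = 2 by norm_num),
        Nat.add_sub_cancel, e1]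

/-- From a finite set of pairs `(n0, q)` as in `local_step`, with all values at most `X`, we get
many `n ≤ X` with few prime factors and `g (n^2+1) = r`. -/
theorem count_step {p K X : ℕ} (hp : 2 ≤ p)
    (g : ℕ → ZMod 3) (hg : ∀ m n : ℕ, m ≠ 0 → n ≠ 0 → g (m * n) = g m + g n)
    (hgp : g p ≠ 0) (r : ZMod 3) (P : Finset (ℕ × ℕ))
    (hP : ∀ x ∈ P, g x.2 = -r ∧ (∀ b ≤ p ^ 2, cardFactors ((x.1 + b * x.2) ^ 2 + 1) ≤ K) ∧
      ∃ t, x.1 ^ 2 + 1 = x.2 * (p ^ 2 * t) ∧ x.1 + p ^ 2 * x.2 + cof p x.1 x.2 t (p ^ 2) ≤ X) :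
    P.card ≤ ((Icc 1 X).filter
      (fun n => cardFactors (n ^ 2 + 1) ≤ 2 * K ∧ g (n ^ 2 + 1) = r)).card *
        (4 * (p ^ 2 + 1) * 2 ^ (2 * K)) := by
  classical
  set G := (Icc 1 X).filter (fun n => cardFactors (n ^ 2 + 1) ≤ 2 * K ∧ g (n ^ 2 + 1) = r) with hG
  set U : Finset (ℕ × ℕ) := G.biUnion (fun n => ((range 4 ×ˢ (range (p ^ 2 + 1) ×ˢ
    (n ^ 2 + 1).divisors)).image (fun y => dec p (n, y.1, y.2.1, y.2.2)))) with hU
  have hsub : P ⊆ U := by
    intro x hx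
    obtain ⟨h1, h2, t, h3, h4⟩ := hP x hx
    obtain ⟨n, j, b, d, k1, k2, k3, k4, k5, k6, k7, k8⟩ := local_step hp h3 g hg hgp r h1 h2
    rw [hU, mem_biUnion]
    refine ⟨n, ?_, ?_⟩
    · rw [hG, mem_filter, mem_Icc]
      exact ⟨⟨k6, k7.trans h4⟩, k2, k1⟩
    · rw [mem_image]
      refine ⟨(j, b, d), ?_, ?_⟩
      · rw [mem_product, mem_product, mem_range, mem_range]
        exact ⟨k3, k4, k5⟩
      · exact k8
  refine (card_le_card hsub).trans ?_
  rw [hU]
  refine card_biUnion_le_card_mul _ _ _ ?_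
  intro n hn
  refine card_image_le.trans ?_
  rw [card_product, card_product, card_range, card_range, ← mul_assoc]
  rw [hG, mem_filter] at hn
  have h1 := card_divisors_le (n ^ 2 + 1) (by omega)
  have h2 : 2 ^ cardFactors (n ^ 2 + 1) ≤ 2 ^ (2 * K) :=
    Nat.pow_le_pow_right (by norm_num) hn.2.1
  gcongr
  exact h1.trans h2

end Pool.Agent.H6.AP3
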