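import Mathlib
import Pool.Agent.H6.AP3.Local
import Pool.Agent.H6.AP3.Sieve
import Pool.Agent.H6.AP3.Roots

set_option autoImplicit false

/-!
# Construction of many pairs
-/

open Finset ArithmeticFunction

namespace Pool.Agent.H6.AP3

open Pool.Agent.H6.Hooley

theorem omega_bound {p T n M K0 C S e j k D N : ℕ} (hp : 2 ≤ p) (hmod : IsMod p T n M K0)
    (hj : j < p ^ 2 + 1) (hk : k < 3) (hS : 2 ≤ S)
    (hDp : ∀ q : ℕ, q.Prime → q ∣ D → S ≤ q ^ C)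
    (hN : N ≡ n + j * p ^ k [MOD M])
    (hs : ∀ q : ℕ, q.Prime → T < q → q ^ C ≤ S → ¬ q ∣ M * D → ¬ q ∣ N ^ 2 + 1)
    (hsize : N ^ 2 + 1 ≤ S ^ e) : cardFactors (N ^ 2 + 1) ≤ K0 + e * C := by
  have hM1 : M ≠ 1 := by
    intro h
    have h1 := Nat.le_of_dvd hmod.pos hmod.p4
    rw [h] at h1
    have h2 : 2 ^ 4 ≤ p ^ 4 := Nat.pow_le_pow_left hp 4
    omega
  obtain ⟨q0, hq0, hq0M⟩ := Nat.exists_prime_and_dvd hM1
  obtain ⟨F, hF⟩ : ∃ F, F = (n + j * p ^ k) ^ 2 + 1 := ⟨_, rfl⟩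
  have hmul : ∀ q : ℕ, q.Prime → q ∣ M → F * q ∣ M := by rw [hF]; exact hmod.mul j hj k hk
  have hFM : F ∣ M := (dvd_mul_right F q0).trans (hmul q0 hq0 hq0M)
  have hNF : N ^ 2 + 1 ≡ F [MOD M] := by rw [hF]; exact (hN.pow 2).add_right 1
  have hFN : F ∣ N ^ 2 + 1 := ((hNF.of_dvd hFM).dvd_iff dvd_rfl).2 dvd_rfl
  obtain ⟨R, hR⟩ := hFN
  have hF0 : 0 < F := by rw [hF]; omega
  have hR0 : 0 < R := Nat.pos_of_ne_zero (by rintro rfl; simp at hR)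
  have hRp : ∀ q : ℕ, q.Prime → q ∣ R → S ≤ q ^ C := by
    intro q hq hqR
    by_cases hqM : q ∣ M
    · exfalso
      have h1 : F * R ≡ F * 1 [MOD F * q] := by
        rw [← hR, mul_one]
        exact hNF.of_dvd (hmul q hq hqM)
      have h2 : R ≡ 1 [MOD q] := Nat.ModEq.mul_left_cancel' hF0.ne' h1
      have h3 : q ∣ 1 := (h2.dvd_iff dvd_rfl).1 hqR
      exact hq.one_lt.ne' (Nat.dvd_one.1 h3)
    · by_cases hqD : q ∣ D
      · exact hDp q hq hqD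
      · by_contra hlt
        refine hs q hq ?_ (by omega) ?_ ?_
        · by_contra hT
          exact hqM (hmod.small q hq (by omega))
        · intro h
          rcases hq.dvd_mul.1 h with h | h
          · exact hqM h
          · exact hqD h
        · rw [hR]; exact hqR.mul_left _
  have hRle : R ≤ S ^ e := by
    have : R ≤ F * R := Nat.le_mul_of_pos_left _ hF0
    rw [← hR] at this
    exact this.trans hsize
  rw [hR, cardFactors_mul hF0.ne' hR0.ne']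
  have h1 := cardFactors_le S C e hS R hR0.ne' hRp hRle
  have h2 : cardFactors F ≤ K0 := by rw [hF]; exact hmod.om j hj k hk
  omega

theorem size_bound {p M S D n0 q t : ℕ} (hq : q ≤ p ^ 2 * D) (hDq : D ≤ q) (hD : 0 < D)
    (hM : 0 < M) (hS : 0 < S) (hn : n0 ≤ S * (M * D)) (ht : n0 ^ 2 + 1 = q * (p ^ 2 * t)) :
    n0 + p ^ 2 * q ≤ S * (M + p ^ 4) * D ∧
    n0 + p ^ 2 * q + cof p n0 q t (p ^ 2) ≤ 3 * (S * (M + p ^ 4)) ^ 2 * D := by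
  have h1 : n0 + p ^ 2 * q ≤ S * (M + p ^ 4) * D := by
    have h2 : p ^ 2 * q ≤ p ^ 2 * (p ^ 2 * D) := Nat.mul_le_mul_left _ hq
    have h3 : p ^ 2 * (p ^ 2 * D) = 1 * (p ^ 4 * D) := by ring
    have h4 : 1 * (p ^ 4 * D) ≤ S * (p ^ 4 * D) := Nat.mul_le_mul_right _ hS
    calc n0 + p ^ 2 * q ≤ S * (M * D) + S * (p ^ 4 * D) := by omega
      _ = _ := by ring
  refine ⟨h1, ?_⟩
  obtain ⟨E, hE⟩ : ∃ E, E = S * (M + p ^ 4) := ⟨_, rfl⟩
  rw [← hE] at h1 ⊢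
  have hE0 : 0 < E := by rw [hE]; positivity
  have h2 : cof p n0 q t (p ^ 2) * D ≤ (E * D) ^ 2 + 1 := by
    have e1 := cof_mul ht (p ^ 2)
    calc cof p n0 q t (p ^ 2) * D ≤ cof p n0 q t (p ^ 2) * q := Nat.mul_le_mul_left _ hDq
      _ = (n0 + p ^ 2 * q) ^ 2 + 1 := by rw [e1]; ring
      _ ≤ (E * D) ^ 2 + 1 := by gcongr
  have h3 : cof p n0 q t (p ^ 2) ≤ E ^ 2 * D + 1 := by
    by_contra hcon
    push Not at hcon
    have h4 : (E ^ 2 * D + 2) * D ≤ cof p n0 q t (p ^ 2) * D := Nat.mul_le_mul_right _ hcon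
    nlinarith
  have h4 : E * D ≤ E ^ 2 * D := by
    apply Nat.mul_le_mul_right
    nlinarith
  have h5 : 1 ≤ E ^ 2 * D := Nat.succ_le_of_lt (by positivity)
  calc n0 + p ^ 2 * q + cof p n0 q t (p ^ 2) ≤ E * D + (E ^ 2 * D + 1) := by omega
    _ ≤ 3 * E ^ 2 * D := by
        have : 3 * E ^ 2 * D = E ^ 2 * D + E ^ 2 * D + E ^ 2 * D := by ring
        omega

theorem k_exists (τ x r : ZMod 3) (hτ : τ ≠ 0) : ∃ k : ℕ, k < 3 ∧ (k : ZMod 3) * τ + x = -r := by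
  have h : ∀ τ x r : ZMod 3, τ ≠ 0 → ∃ k : ℕ, k < 3 ∧ (k : ZMod 3) * τ + x = -r := by
    decide
  exact h τ x r hτ

theorem g_pow (g : ℕ → ZMod 3) (hg : ∀ m n : ℕ, m ≠ 0 → n ≠ 0 → g (m * n) = g m + g n)
    (p : ℕ) (hp : p ≠ 0) (k : ℕ) : g (p ^ k) = k * g p := by
  have h1 : g 1 = 0 := by
    have := hg 1 1 one_ne_zero one_ne_zero
    rw [mul_one] at this
    exact left_eq_add.1 this
  induction k with
  | zero => simp [h1]
  | succ k ih => rw [pow_succ, hg _ _ (pow_ne_zero _ hp) hp, ih]; push_cast; ring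

theorem exists_k (g : ℕ → ZMod 3) (hg : ∀ m n : ℕ, m ≠ 0 → n ≠ 0 → g (m * n) = g m + g n)
    (p : ℕ) (hp : p ≠ 0) (hgp : g p ≠ 0) (r : ZMod 3) (D : ℕ) (hD : D ≠ 0) :
    ∃ k : ℕ, k < 3 ∧ g (p ^ k * D) = -r := by
  obtain ⟨k, hk, h⟩ := k_exists (g p) (g D) r hgp
  refine ⟨k, hk, ?_⟩
  rw [hg _ _ (pow_ne_zero _ hp) hD, g_pow g hg p hp, h]

end Pool.Agent.H6.AP3
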