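import Mathlib
import Pool.Agent.H6.AP3.Construct

set_option autoImplicit false

/-!
# Construction of many pairs: the count
-/

open Finset ArithmeticFunction

namespace Pool.Agent.H6.AP3

open Pool.Agent.H6.Hooley

theorem log_cmp (m C : ℕ) (hm : 1 ≤ m) : ∀ᶠ S : ℕ in Filter.atTop,
    (S : ℝ) ^ (2 * m) ≤ (S : ℝ) ^ m * ((S : ℝ) ^ m / (2 * Real.log ((S : ℝ) ^ m) ^ C) *
      ((S : ℝ) / Real.log S ^ C)) := by
  filter_upwards [log_ev (2 * C) (2 * m ^ C) (by positivity),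
    Filter.eventually_ge_atTop 3] with S hS hS3
  have hSp : (0 : ℝ) < S := by positivity
  have hL : 0 < Real.log S := Real.log_pos (by exact_mod_cast (by omega : 1 < S))
  have h1 : √(S : ℝ) ≤ S := by
    rw [Real.sqrt_le_left hSp.le]
    have : (1 : ℝ) ≤ S := by exact_mod_cast (by omega : 1 ≤ S)
    nlinarith
  have h2 : 2 * (m : ℝ) ^ C * Real.log S ^ (2 * C) ≤ S := hS.trans h1
  have hm0 : (0 : ℝ) < m := by exact_mod_cast hm
  rw [Real.log_pow]
  have h3 : 2 * (m * Real.log S) ^ C * Real.log S ^ C ≤ S := by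
    refine le_trans (le_of_eq ?_) h2
    ring
  have h5 : (1 : ℝ) ≤ S / (2 * (m * Real.log S) ^ C * Real.log S ^ C) := by
    rw [le_div_iff₀ (by positivity)]; linarith
  calc (S : ℝ) ^ (2 * m) = (S : ℝ) ^ (2 * m) * 1 := by ring
    _ ≤ (S : ℝ) ^ (2 * m) * (S / (2 * (m * Real.log S) ^ C * Real.log S ^ C)) := by gcongr
    _ = _ := by
      field_simp
      ring

/-- `D` as a function of the parameters -/
def DD (M a b : ℕ) : ℕ := (M * a + 1) ^ 2 + (M * (b + 1)) ^ 2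

theorem DD_mod (M a b : ℕ) : DD M a b ≡ 1 [MOD M] := by
  have h : DD M a b = M * (M * a ^ 2 + 2 * a + M * (b + 1) ^ 2) + 1 := by rw [DD]; ring
  rw [h]
  exact (Nat.modEq_iff_dvd' (by omega)).2 (by simp) |>.symm

theorem DD_pos (M a b : ℕ) : 0 < DD M a b := by rw [DD]; positivity

theorem DD_coprime (M a b : ℕ) : Nat.Coprime M (DD M a b) := by
  have h : DD M a b = M * (M * a ^ 2 + 2 * a + M * (b + 1) ^ 2) + 1 := by rw [DD]; ring
  rw [h]
  simp

theorem DD_le {M a b Y : ℕ} (hM : 0 < M) (ha : a < Y) (hb : b < Y) :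
    DD M a b ≤ 2 * M ^ 2 * Y ^ 2 := by
  have h1 : M * a + 1 ≤ M * Y := by
    calc M * a + 1 ≤ M * a + M := by omega
      _ = M * (a + 1) := by ring
      _ ≤ M * Y := Nat.mul_le_mul_left _ ha
  have h2 : M * (b + 1) ≤ M * Y := Nat.mul_le_mul_left _ hb
  calc DD M a b ≤ (M * Y) ^ 2 + (M * Y) ^ 2 := by rw [DD]; gcongr
    _ = _ := by ring

open scoped Classical in
theorem exists_pairs {p : ℕ} (hp : p.Prime) (hp4 : p % 4 = 1) (m : ℕ) (hm : 1 ≤ m) :
    ∃ K C3 S1 : ℕ, ∀ S : ℕ, S1 ≤ S → ∀ g : ℕ → ZMod 3,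
      (∀ m n : ℕ, m ≠ 0 → n ≠ 0 → g (m * n) = g m + g n) → g p ≠ 0 → ∀ r : ZMod 3,
      ∃ P : Finset (ℕ × ℕ), S ^ (2 * m) ≤ P.card ∧
        ∀ x ∈ P, g x.2 = -r ∧ (∀ b ≤ p ^ 2, cardFactors ((x.1 + b * x.2) ^ 2 + 1) ≤ K) ∧
          ∃ t, x.1 ^ 2 + 1 = x.2 * (p ^ 2 * t) ∧
            x.1 + p ^ 2 * x.2 + cof p x.1 x.2 t (p ^ 2) ≤ C3 * S ^ (2 * m + 2) := by
  obtain ⟨C, T, S0, hC, H⟩ := hooley (2 * (p ^ 2 + 1))
  have H' : SieveProp (2 * (p ^ 2 + 1)) C T S0 := H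
  obtain ⟨n, M, K0, hmod⟩ := exists_mod hp hp4 T
  obtain ⟨Y0, hY0⟩ := sieveD' (Nat.le_add_left 1 (p ^ 2)) hC H' M hmod.small
  obtain ⟨S2, hS2⟩ := Filter.eventually_atTop.1 (log_cmp m C hm)
  have hM := hmod.pos
  refine ⟨K0 + (4 * m + 4) * C, 3 * (M + p ^ 4) ^ 2 * (2 * M ^ 2),
    max (max 2 (max S0 Y0)) (max S2 ((M + p ^ 4) * (2 * M ^ 2) + 1)), ?_⟩
  intro S hS g hg hgp r
  have hSa : 2 ≤ S := (((le_max_left _ _).trans (le_max_left _ _))).trans hS
  have hSb : S0 ≤ S :=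
    ((((le_max_left _ _).trans (le_max_right _ _)).trans (le_max_left _ _))).trans hS
  have hSc : Y0 ≤ S :=
    ((((le_max_right _ _).trans (le_max_right _ _)).trans (le_max_left _ _))).trans hS
  have hSd : S2 ≤ S := (((le_max_left _ _).trans (le_max_right _ _))).trans hS
  have hSe : (M + p ^ 4) * (2 * M ^ 2) + 1 ≤ S :=
    (((le_max_right _ _).trans (le_max_right _ _))).trans hS
  obtain ⟨Y, hY⟩ : ∃ Y, Y = S ^ m := ⟨_, rfl⟩
  have hSY : S ≤ Y := by rw [hY]; exact Nat.le_self_pow (by omega) S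
  have hY1 : Y0 ≤ Y := hSc.trans hSY
  -- choices
  have hv : ∀ a b : ℕ, ∃ v : ℕ, Nat.Coprime (M * a + 1) (M * (b + 1)) →
      v < M * DD M a b ∧ v ≡ n [MOD M] ∧ DD M a b ∣ v ^ 2 + 1 ∧
        v * (M * (b + 1)) ≡ M * a + 1 [MOD DD M a b] := by
    intro a b
    by_cases h : Nat.Coprime (M * a + 1) (M * (b + 1))
    · obtain ⟨v, h1, h2, h3, h4⟩ := exists_v h (rfl : DD M a b = _) (by positivity)
        (DD_coprime M a b) hM n
      exact ⟨v, fun _ => ⟨h1, h2, h3, h4⟩⟩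
    · exact ⟨0, fun h' => absurd h' h⟩
  choose v hv using hv
  have hk : ∀ a b : ℕ, ∃ k : ℕ, k < 3 ∧ g (p ^ k * DD M a b) = -r := fun a b =>
    exists_k g hg p hp.ne_zero hgp r _ (DD_pos M a b).ne'
  choose k hk using hk
  obtain ⟨GA, hGA⟩ : ∃ GA : ℕ → Finset ℕ, GA = fun b => (range Y).filter (fun a =>
    (∀ q : ℕ, q.Prime → q ^ C ≤ Y → ¬ q ∣ (M * a + 1) ^ 2 + (M * (b + 1)) ^ 2) ∧
      Nat.Coprime (M * a + 1) (M * (b + 1))) := ⟨_, rfl⟩
  obtain ⟨GS, hGS⟩ : ∃ GS : ℕ → ℕ → Finset ℕ, GS = fun b a => (range S).filter (fun s =>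
    ∀ q : ℕ, q.Prime → T < q → q ^ C ≤ S → ¬ q ∣ M * DD M a b →
      ∀ j < p ^ 2 + 1, ¬ q ∣ (M * DD M a b * s + (v a b + j * (p ^ k a b * DD M a b))) ^ 2 + 1) :=
    ⟨_, rfl⟩
  have hGAmem : ∀ b a, a ∈ GA b → a < Y ∧ (∀ q : ℕ, q.Prime → q ∣ DD M a b → Y < q ^ C) ∧
      Nat.Coprime (M * a + 1) (M * (b + 1)) := by
    intro b a h
    rw [hGA] at h
    simp only [mem_filter, mem_range] at h
    refine ⟨h.1, ?_, h.2.2⟩
    intro q hq hqD
    by_contra hlt
    exact h.2.1 q hq (by omega) hqD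
  have hGSmem : ∀ b a s, s ∈ GS b a → s < S ∧ (∀ j < p ^ 2 + 1, ∀ q : ℕ, q.Prime → T < q →
      q ^ C ≤ S → ¬ q ∣ M * DD M a b →
      ¬ q ∣ (M * DD M a b * s + (v a b + j * (p ^ k a b * DD M a b))) ^ 2 + 1) := by
    intro b a s h
    rw [hGS] at h
    simp only [mem_filter, mem_range] at h
    exact ⟨h.1, fun j hj q hq hT hqS hqM => h.2 q hq hT hqS hqM j hj⟩
  have hGAcard : ∀ b < Y, (Y : ℝ) / (2 * Real.log Y ^ C) ≤ ((GA b).card : ℝ) := by
    intro b hb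
    have := hY0 Y hY1 (b + 1) (by omega) (by omega)
    rw [hGA]
    exact this
  have hGScard : ∀ b a, (S : ℝ) / Real.log S ^ C ≤ ((GS b a).card : ℝ) := by
    intro b a
    have := sieveS H' (M * DD M a b) (fun j => v a b + j * (p ^ k a b * DD M a b)) S hSb
    rw [hGS]
    exact this
  obtain ⟨Tr, hTr⟩ : ∃ Tr : Finset (Σ _ : ℕ, Σ _ : ℕ, ℕ),
    Tr = (range Y).sigma (fun b => (GA b).sigma (fun a => GS b a)) := ⟨_, rfl⟩
  have hTrmem : ∀ b a s, (⟨b, a, s⟩ : Σ _ : ℕ, Σ _ : ℕ, ℕ) ∈ Tr → b < Y ∧ a ∈ GA b ∧ s ∈ GS b a := by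
    intro b a s h
    rw [hTr, mem_sigma, mem_sigma, mem_range] at h
    exact ⟨h.1, h.2.1, h.2.2⟩
  have hTrcard : S ^ (2 * m) ≤ Tr.card := by
    have h1 : (Tr.card : ℝ) = ∑ b ∈ range Y, ∑ a ∈ GA b, ((GS b a).card : ℝ) := by
      rw [hTr, card_sigma]
      push_cast
      apply sum_congr rfl
      intro b _
      rw [card_sigma]
      push_cast
      rfl
    have h2 := hS2 S hSd
    have hYr : (S : ℝ) ^ m = Y := by rw [hY]; push_cast; rfl
    rw [hYr] at h2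
    have hSlog : 0 ≤ (S : ℝ) / Real.log S ^ C := by
      have : 0 ≤ Real.log S := Real.log_natCast_nonneg S
      positivity
    have h3 : (Y : ℝ) * ((Y : ℝ) / (2 * Real.log Y ^ C) * ((S : ℝ) / Real.log S ^ C)) ≤ Tr.card := by
      rw [h1]
      calc (Y : ℝ) * ((Y : ℝ) / (2 * Real.log Y ^ C) * ((S : ℝ) / Real.log S ^ C))
          = ∑ b ∈ range Y, ((Y : ℝ) / (2 * Real.log Y ^ C) * ((S : ℝ) / Real.log S ^ C)) := by
            rw [sum_const, card_range, nsmul_eq_mul]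
        _ ≤ ∑ b ∈ range Y, ∑ a ∈ GA b, ((GS b a).card : ℝ) := by
            apply sum_le_sum
            intro b hb
            rw [mem_range] at hb
            calc (Y : ℝ) / (2 * Real.log Y ^ C) * ((S : ℝ) / Real.log S ^ C)
                ≤ (GA b).card * ((S : ℝ) / Real.log S ^ C) := by
                  gcongr
                  exact hGAcard b hb
              _ = ∑ a ∈ GA b, ((S : ℝ) / Real.log S ^ C) := by rw [sum_const, nsmul_eq_mul]
              _ ≤ ∑ a ∈ GA b, ((GS b a).card : ℝ) := sum_le_sum fun a _ => hGScard b a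
    have h4 := h2.trans h3
    exact_mod_cast h4
  obtain ⟨f, hf⟩ : ∃ f : (Σ _ : ℕ, Σ _ : ℕ, ℕ) → ℕ × ℕ, f = fun x =>
    (v x.2.1 x.1 + x.2.2 * (M * DD M x.2.1 x.1), p ^ k x.2.1 x.1 * DD M x.2.1 x.1) := ⟨_, rfl⟩
  have hpM : p ∣ M := (dvd_pow_self p (by norm_num)).trans hmod.p4
  have hpD : ∀ a b, ¬ p ∣ DD M a b := by
    intro a b h
    have h1 := Nat.Coprime.coprime_dvd_left hpM (DD_coprime M a b)
    exact (hp.coprime_iff_not_dvd.1 h1) h
  have hinj : Set.InjOn f (Tr : Set (Σ _ : ℕ, Σ _ : ℕ, ℕ)) := by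
    rintro ⟨b, a, s⟩ hx ⟨b', a', s'⟩ hx' hxx
    rw [mem_coe] at hx hx'
    obtain ⟨h1, h2, h3⟩ := hTrmem _ _ _ hx
    obtain ⟨h1', h2', h3'⟩ := hTrmem _ _ _ hx'
    obtain ⟨h4, h5, h6⟩ := hGAmem _ _ h2
    obtain ⟨h4', h5', h6'⟩ := hGAmem _ _ h2'
    obtain ⟨v1, v2, v3, v4⟩ := hv a b h6
    obtain ⟨v1', v2', v3', v4'⟩ := hv a' b' h6'
    rw [hf] at hxx
    simp only [Prod.mk.injEq] at hxx
    obtain ⟨e1, e2⟩ := hxx
    have hDD : DD M a b = DD M a' b' := by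
      have g1 : (p ^ k a b * DD M a b).factorization p = k a b := by
        rw [Nat.factorization_mul (pow_ne_zero _ hp.ne_zero) (DD_pos M a b).ne',
          hp.factorization_pow, Finsupp.add_apply, Finsupp.single_eq_same,
          Nat.factorization_eq_zero_of_not_dvd (hpD a b), add_zero]
      have g2 : (p ^ k a' b' * DD M a' b').factorization p = k a' b' := by
        rw [Nat.factorization_mul (pow_ne_zero _ hp.ne_zero) (DD_pos M a' b').ne',
          hp.factorization_pow, Finsupp.add_apply, Finsupp.single_eq_same,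
          Nat.factorization_eq_zero_of_not_dvd (hpD a' b'), add_zero]
      have g3 : k a b = k a' b' := by rw [← g1, ← g2, e2]
      rw [g3] at e2
      exact Nat.eq_of_mul_eq_mul_left (pow_pos hp.pos _) e2
    rw [← hDD] at e1 v1' v3' v4'
    obtain ⟨Q, hQ⟩ : ∃ Q, Q = M * DD M a b := ⟨_, rfl⟩
    rw [← hQ] at e1 v1 v1'
    have hQ0 : 0 < Q := by rw [hQ]; exact Nat.mul_pos hM (DD_pos M a b)
    have e3 : s = s' := by
      have g1 : (v a b + s * Q) / Q = s := by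
        rw [Nat.add_mul_div_right _ _ hQ0, Nat.div_eq_of_lt v1, zero_add]
      have g2 : (v a' b' + s' * Q) / Q = s' := by
        rw [Nat.add_mul_div_right _ _ hQ0, Nat.div_eq_of_lt v1', zero_add]
      rw [← g1, ← g2, e1]
    rw [e3] at e1
    have e4 : v a b = v a' b' := by omega
    rw [← e4] at v3' v4'
    obtain ⟨e5, e6⟩ := unique_ab (rfl : DD M a b = _) (hDD : DD M a b = _) (by positivity)
      (by positivity) (by positivity) (by positivity) v3 v4 v4'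
    have e7 : a = a' := by
      have := Nat.add_right_cancel e5
      exact Nat.eq_of_mul_eq_mul_left hM this
    have e8 : b = b' := by
      have := Nat.eq_of_mul_eq_mul_left hM e6
      omega
    rw [e3, e7, e8]
  refine ⟨Tr.image f, ?_, ?_⟩
  · rw [card_image_of_injOn hinj]
    exact hTrcard
  · intro x hx
    rw [mem_image] at hx
    obtain ⟨⟨b, a, s⟩, hx, rfl⟩ := hx
    obtain ⟨h1, h2, h3⟩ := hTrmem _ _ _ hx
    obtain ⟨h4, h5, h6⟩ := hGAmem _ _ h2
    obtain ⟨h7, h8⟩ := hGSmem _ _ _ h3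
    obtain ⟨v1, v2, v3, v4⟩ := hv a b h6
    obtain ⟨k1, k2⟩ := hk a b
    rw [hf]
    simp only
    have hDpos := DD_pos M a b
    have hDmod := DD_mod M a b
    have hDle := DD_le hM h4 h1
    have hDcop := DD_coprime M a b
    generalize DD M a b = D at *
    generalize v a b = w at *
    generalize k a b = k0 at *
    have hq0 : 0 < p ^ k0 * D := Nat.mul_pos (pow_pos hp.pos _) hDpos
    have hqle : p ^ k0 * D ≤ p ^ 2 * D :=
      Nat.mul_le_mul_right _ (Nat.pow_le_pow_right hp.pos (by omega))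
    have hqge : D ≤ p ^ k0 * D := Nat.le_mul_of_pos_left _ (pow_pos hp.pos _)
    have hn0mod : w + s * (M * D) ≡ n [MOD M] := by
      have g1 : s * (M * D) ≡ 0 [MOD M] :=
        (Nat.modEq_zero_iff_dvd).2 (Dvd.dvd.mul_left (dvd_mul_right M D) s)
      have g2 := v2.add g1
      rwa [add_zero] at g2
    have hn0D : D ∣ (w + s * (M * D)) ^ 2 + 1 := by
      have g1 : w + s * (M * D) ≡ w [MOD D] := by
        have g1 : s * (M * D) ≡ 0 [MOD D] :=
          (Nat.modEq_zero_iff_dvd).2 (Dvd.dvd.mul_left (dvd_mul_left D M) s)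
        have g2 := (Nat.ModEq.refl w).add g1
        rwa [add_zero] at g2
      exact (((g1.pow 2).add_right 1).dvd_iff dvd_rfl).2 v3
    have hn0p : p ^ 4 ∣ (w + s * (M * D)) ^ 2 + 1 :=
      ((((hn0mod.of_dvd hmod.p4).pow 2).add_right 1).dvd_iff dvd_rfl).2 hmod.root
    have hcop4 : Nat.Coprime (p ^ 4) D := Nat.Coprime.coprime_dvd_left hmod.p4 hDcop
    have hall : p ^ 4 * D ∣ (w + s * (M * D)) ^ 2 + 1 :=
      hcop4.mul_dvd_of_dvd_of_dvd hn0p hn0D
    obtain ⟨t, ht⟩ : ∃ t, (w + s * (M * D)) ^ 2 + 1 = p ^ k0 * D * (p ^ 2 * t) := by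
      have g1 : p ^ k0 * D * p ^ 2 ∣ p ^ 4 * D := by
        have : p ^ k0 * D * p ^ 2 = p ^ (k0 + 2) * D := by ring
        rw [this]
        exact Nat.mul_dvd_mul (pow_dvd_pow p (by omega)) dvd_rfl
      obtain ⟨t, ht⟩ := g1.trans hall
      exact ⟨t, by rw [ht]; ring⟩
    have hn0le : w + s * (M * D) ≤ S * (M * D) := by
      have : (s + 1) * (M * D) ≤ S * (M * D) := Nat.mul_le_mul_right _ h7
      nlinarith
    obtain ⟨sz1, sz2⟩ := size_bound hqle hqge hDpos hM (by omega) hn0le ht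
    refine ⟨k2, ?_, t, ht, ?_⟩
    · intro j hj
      have hN : w + s * (M * D) + j * (p ^ k0 * D) ≡ n + j * p ^ k0 [MOD M] := by
        apply hn0mod.add
        apply Nat.ModEq.mul_left
        have := hDmod.mul_left (p ^ k0)
        rwa [mul_one] at this
      refine omega_bound (S := S) (e := 4 * m + 4) (k := k0) (D := D) (T := T) hp.two_le hmod
        (j := j) (by omega) k1 hSa ?_ hN ?_ ?_
      · intro q hq hqD
        exact hSY.trans (h5 q hq hqD).le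
      · intro q hq hT hqS hqM
        have := h8 j (by omega) q hq hT hqS hqM
        have e : w + s * (M * D) + j * (p ^ k0 * D) = M * D * s + (w + j * (p ^ k0 * D)) := by ring
        rw [e]
        exact this
      · have g1 : w + s * (M * D) + j * (p ^ k0 * D) ≤ S * (M + p ^ 4) * D := by
          refine le_trans ?_ sz1
          gcongr
        have g2 : S * (M + p ^ 4) * D ≤ (M + p ^ 4) * (2 * M ^ 2) * S ^ (2 * m + 1) := by
          calc S * (M + p ^ 4) * D ≤ S * (M + p ^ 4) * (2 * M ^ 2 * Y ^ 2) := by gcongr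
            _ = _ := by rw [hY]; ring
        have g3 : w + s * (M * D) + j * (p ^ k0 * D) + 1 ≤ S ^ (2 * m + 2) := by
          have g4 : 1 ≤ S ^ (2 * m + 1) := Nat.one_le_pow _ _ (by omega)
          calc w + s * (M * D) + j * (p ^ k0 * D) + 1
              ≤ (M + p ^ 4) * (2 * M ^ 2) * S ^ (2 * m + 1) + S ^ (2 * m + 1) := by omega
            _ = ((M + p ^ 4) * (2 * M ^ 2) + 1) * S ^ (2 * m + 1) := by ring
            _ ≤ S * S ^ (2 * m + 1) := by gcongr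
            _ = S ^ (2 * m + 2) := by ring
        calc (w + s * (M * D) + j * (p ^ k0 * D)) ^ 2 + 1
            ≤ (w + s * (M * D) + j * (p ^ k0 * D) + 1) ^ 2 := by ring_nf; omega
          _ ≤ (S ^ (2 * m + 2)) ^ 2 := by gcongr
          _ = S ^ (4 * m + 4) := by ring
    · refine sz2.trans ?_
      calc 3 * (S * (M + p ^ 4)) ^ 2 * D ≤ 3 * (S * (M + p ^ 4)) ^ 2 * (2 * M ^ 2 * Y ^ 2) := by
            gcongr
        _ = _ := by rw [hY]; ring

end Pool.Agent.H6.AP3
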